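import Pool.Agent.H47.SQ.Targets

/-!
# Search on random k-CNFs (MP_c62aed_lc), row EXU: the bad solutions of the uniform formulas
-/

set_option autoImplicit false

namespace Pool.Agent.H45.SQP

open Finset Pool.Agent.H97.RK Pool.Agent.H41.SS Pool.Agent.H47.SR
open Pool.Agent.H47.PL (Sat Os)

open Classical in
theorem card_dst (n r : ℕ) (τ : Fin n → Bool) :
    (univ.filter fun z : Fin n → Bool => dst z τ ≤ r).card ≤ bl n r := by
  have h1 : (univ.filter fun z : Fin n → Bool => dst z τ ≤ r).card ≤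
      ((range (r + 1)).biUnion fun i => (univ : Finset (Fin n)).powersetCard i).card := by
    refine card_le_card_of_injOn (fun z => univ.filter fun u => z u ≠ τ u) ?_ ?_
    · intro z hz
      have hz' := (mem_filter.1 hz).2
      rw [mem_coe, mem_biUnion]
      exact ⟨_, mem_range.2 (Nat.lt_succ_of_le hz'), mem_powersetCard.2 ⟨subset_univ _, rfl⟩⟩
    · intro z _ z' _ h
      funext u
      have h2 : u ∈ (univ.filter fun u => z u ≠ τ u) ↔ u ∈ (univ.filter fun u => z' u ≠ τ u) := by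
        have h3 : (univ.filter fun u => z u ≠ τ u) = univ.filter fun u => z' u ≠ τ u := h
        rw [h3]
      simp only [mem_filter, mem_univ, true_and] at h2
      revert h2
      cases z u <;> cases z' u <;> cases τ u <;> simp
  refine h1.trans (card_biUnion_le.trans (le_of_eq ?_))
  unfold bl
  refine Finset.sum_congr rfl fun i _ => ?_
  rw [card_powersetCard, card_univ, Fintype.card_fin]

open Classical in
theorem dist_sat_iff {n k m : ℕ} (F : Fml n k m) (τ : Fin n → Bool) :
    (Dist F ∧ Sat F τ) ↔ ∀ c, F c ∈ Os n k τ := by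
  constructor
  · rintro ⟨h1, h2⟩ c
    exact mem_filter.2 ⟨mem_Om.2 (h1 c), h2 c⟩
  · intro h
    exact ⟨fun c => mem_Om.1 (mem_filter.1 (h c)).1, fun c => (mem_filter.1 (h c)).2⟩

open Classical in
theorem card_sat {n k m : ℕ} (τ : Fin n → Bool) :
    (univ.filter fun F : Fml n k m => Dist F ∧ Sat F τ).card = (Os n k τ).card ^ m := by
  have h1 : (univ.filter fun F : Fml n k m => Dist F ∧ Sat F τ) =
      Fintype.piFinset fun _ : Fin m => Os n k τ := by
    ext F
    rw [mem_filter, Fintype.mem_piFinset, dist_sat_iff]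
    exact ⟨fun h => h.2, fun h => ⟨mem_univ _, h⟩⟩
  rw [h1, Fintype.card_piFinset_const]

open Classical in
theorem card_pairs (n k m : ℕ) (hOSC : Pool.Agent.H47.PL.T_OSC) :
    ((univ.filter fun p : Fml n k m × (Fin n → Bool) => Dist p.1 ∧ Sat p.1 p.2).card : ℝ) =
      2 ^ n * (((2 ^ k - 1) * n.descFactorial k : ℕ) : ℝ) ^ m := by
  have h1 : (univ.filter fun p : Fml n k m × (Fin n → Bool) => Dist p.1 ∧ Sat p.1 p.2).card =
      ∑ τ : Fin n → Bool, (univ.filter fun F : Fml n k m => Dist F ∧ Sat F τ).card := by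
    rw [card_filter, Fintype.sum_prod_type_right]
    refine Finset.sum_congr rfl fun τ _ => ?_
    rw [card_filter]
  rw [h1]
  have h2 : ∀ τ ∈ (univ : Finset (Fin n → Bool)),
      (univ.filter fun F : Fml n k m => Dist F ∧ Sat F τ).card =
        ((2 ^ k - 1) * n.descFactorial k) ^ m := by
    intro τ _
    rw [card_sat, (hOSC n k τ τ).1]
  rw [Finset.sum_congr rfl h2, sum_const, card_univ, Fintype.card_fun, Fintype.card_bool,
    Fintype.card_fin, smul_eq_mul]
  push_cast
  rfl

open Classical in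
theorem bad_le {n k m : ℕ} (F : Fml n k m) (t : ℕ) :
    (bad F t : ℝ) ≤ ∑ τ : Fin n → Bool, ∑ z ∈ univ.filter fun z : Fin n → Bool =>
      dst z τ ≤ 2 ^ 15 * t + 4 * t + 1,
      if Sat F τ ∧ ¬ Gd F t (128 * t) (12 * t) z then (1 : ℝ) else 0 := by
  unfold bad
  rw [card_filter]
  push_cast
  refine Finset.sum_le_sum fun τ _ => ?_
  have hnn : ∀ z ∈ univ.filter fun z : Fin n → Bool => dst z τ ≤ 2 ^ 15 * t + 4 * t + 1,
      (0 : ℝ) ≤ if Sat F τ ∧ ¬ Gd F t (128 * t) (12 * t) z then (1 : ℝ) else 0 := by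
    intro z _
    split_ifs <;> norm_num
  split_ifs with h
  · obtain ⟨h1, h2⟩ := h
    push Not at h2
    obtain ⟨z, hz1, hz2⟩ := h2
    have h3 := Finset.single_le_sum hnn (mem_filter.2 ⟨mem_univ z, hz1⟩)
    rw [if_pos ⟨h1, hz2⟩] at h3
    exact h3
  · exact Finset.sum_nonneg hnn

open Classical in
theorem pf_EXU (hPGO : T_PGO) (hOSC : Pool.Agent.H47.PL.T_OSC) : T_EXU := by
  intro n k m t hk hkn htn
  have hq : ∀ τ : Fin n → Bool, (Os n k τ).card = (2 ^ k - 1) * n.descFactorial k :=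
    fun τ => (hOSC n k τ τ).1
  have hOm : ∀ τ : Fin n → Bool, Os n k τ ⊆ Om n k := fun τ => filter_subset _ _
  have h2k : 2 ^ k ≤ 2 * (2 ^ k - 1) := by
    have h1 : 2 ^ 1 ≤ 2 ^ k := Nat.pow_le_pow_right (by norm_num) hk
    omega
  have hOm2 : ∀ τ : Fin n → Bool, (Om n k).card ≤ 2 * (Os n k τ).card := by
    intro τ
    rw [hq, card_Om, ← mul_assoc]
    exact Nat.mul_le_mul_right _ h2k
  set Q : ℝ := (((2 ^ k - 1) * n.descFactorial k : ℕ) : ℝ) with hQ
  set P := prb n k m t (128 * t) (12 * t) with hP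
  have hterm : ∀ (τ z : Fin n → Bool),
      (∑ F ∈ univ.filter fun F : Fml n k m => Dist F,
        if Sat F τ ∧ ¬ Gd F t (128 * t) (12 * t) z then (1 : ℝ) else 0) ≤ P * Q ^ m := by
    intro τ z
    have h1 := hPGO n k m t (128 * t) (12 * t) (Os n k τ) (by omega) hkn (by omega) (hOm τ)
      (hOm2 τ) z
    rw [hq] at h1
    refine le_trans (le_of_eq ?_) h1
    rw [← Finset.sum_filter, Finset.sum_const, nsmul_eq_mul, mul_one, filter_filter]
    congr 2
    ext F
    simp only [mem_filter, mem_univ, true_and]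
    rw [← dist_sat_iff]
    tauto
  have hPQ : 0 ≤ P * Q ^ m := by
    refine le_trans ?_ (hterm (fun _ => true) fun _ => true)
    refine Finset.sum_nonneg fun F _ => ?_
    split_ifs <;> norm_num
  calc (∑ F ∈ univ.filter fun F : Fml n k m => Dist F, (bad F t : ℝ))
      ≤ ∑ F ∈ univ.filter fun F : Fml n k m => Dist F, ∑ τ : Fin n → Bool,
        ∑ z ∈ univ.filter fun z : Fin n → Bool => dst z τ ≤ 2 ^ 15 * t + 4 * t + 1,
          if Sat F τ ∧ ¬ Gd F t (128 * t) (12 * t) z then (1 : ℝ) else 0 :=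
        Finset.sum_le_sum fun F _ => bad_le F t
    _ = ∑ τ : Fin n → Bool,
        ∑ z ∈ univ.filter fun z : Fin n → Bool => dst z τ ≤ 2 ^ 15 * t + 4 * t + 1,
          ∑ F ∈ univ.filter fun F : Fml n k m => Dist F,
          if Sat F τ ∧ ¬ Gd F t (128 * t) (12 * t) z then (1 : ℝ) else 0 := by
        rw [Finset.sum_comm]
        refine Finset.sum_congr rfl fun τ _ => ?_
        rw [Finset.sum_comm]
    _ ≤ ∑ τ : Fin n → Bool,
        ∑ z ∈ univ.filter fun z : Fin n → Bool => dst z τ ≤ 2 ^ 15 * t + 4 * t + 1,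
          P * Q ^ m :=
        Finset.sum_le_sum fun τ _ => Finset.sum_le_sum fun z _ => hterm τ z
    _ ≤ ∑ _τ : Fin n → Bool, (bl n (2 ^ 15 * t + 4 * t + 1) : ℝ) * (P * Q ^ m) := by
        refine Finset.sum_le_sum fun τ _ => ?_
        rw [Finset.sum_const, nsmul_eq_mul]
        refine mul_le_mul_of_nonneg_right ?_ hPQ
        exact_mod_cast card_dst n _ τ
    _ = 2 ^ n * ((bl n (2 ^ 15 * t + 4 * t + 1) : ℝ) * (P * Q ^ m)) := by
        rw [Finset.sum_const, card_univ, Fintype.card_fun, Fintype.card_bool, Fintype.card_fin,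
          nsmul_eq_mul]
        push_cast
        rfl
    _ = bl n (2 ^ 15 * t + 4 * t + 1) * P *
        (univ.filter fun p : Fml n k m × (Fin n → Bool) => Dist p.1 ∧ Sat p.1 p.2).card := by
        rw [card_pairs n k m hOSC]
        ring

end Pool.Agent.H45.SQP
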