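import Pool.Agent.H47.SQ.Targets

/-!
# Search on random k-CNFs (MP_c62aed_lc), row NCS: a derivation of a line which is false in a state
is long (after row NC2 of helper79)
-/

set_option autoImplicit false

namespace Pool.Agent.H45.SQP

open Finset Pool.Agent.H97.RK Pool.Agent.H41.SS Pool.Agent.H47.SR

theorem pf_NCS (hTRN : Pool.Agent.H41.SS.T_TRN) (hTAR : Pool.Agent.H47.SR.T_TAR)
    (hMLN : Pool.Agent.H47.SR.T_MLN) (hCR2 : Pool.Agent.H47.PL.T_CR2) :
    Pool.Agent.H47.SR.T_NCS := by
  classical
  intro n k m F t d w ht hw a S line ha hD y A W J hSt hG r hr hF hvs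
  have hcard : (A ∪ W).card + ((A ∪ W)ᶜ).card = n := by
    rw [Finset.card_add_card_compl, Fintype.card_fin]
  have hW : W.card ≤ 4 * t := by
    have h1 := hSt.crd
    have h2 := hSt.lt
    omega
  have hAW : (A ∪ W).card ≤ A.card + W.card := Finset.card_union_le A W
  have hA : A.card ≤ (A ∪ W).card := Finset.card_le_card Finset.subset_union_left
  refine ⟨((A ∪ W)ᶜ).card, by omega, by omega, ?_⟩
  refine hCR2 n ((A ∪ W)ᶜ) y S (d + 2 * t) (4 * t) (w + d) line ?_
  intro x B hx hBV hBa
  have h1 : ∀ u ∈ A ∪ W, x u = y u := by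
    intro u hu
    apply hx
    rw [Finset.mem_compl]
    exact fun h => h hu
  have h2 : (A ∪ B).card ≤ A.card + B.card := Finset.card_union_le A B
  have hGx : Gd F t d w x := hG x fun u hu => h1 u (Finset.mem_union_left _ hu)
  have hGx2 : Gd F (2 * t) d w x := by
    intro T U h3 h4 h5
    have h6 := hGx T U h3 h4 h5
    omega
  have hStx := hTRN n k m F (2 * t) 0 y x A W J hSt h1
  obtain ⟨y', W', J', -, hyA, hyW, hSt'⟩ := hTAR n k m F (2 * t) d w (by omega) x x A B W J hGx2
    hStx (fun u _ => rfl) (by omega)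
  have hyA' : ∀ u ∈ A, y' u = y u := fun u hu => by
    rw [hyA u (Finset.mem_union_left _ hu), h1 u (Finset.mem_union_left _ hu)]
  have hdst : dst y' x ≤ 4 * t := by
    have h3 : dst y' x ≤ W'.card := by
      unfold dst
      refine Finset.card_le_card ?_
      intro u hu
      by_contra hcon
      exact (Finset.mem_filter.1 hu).2 (hyW u hcon)
    have h4 := hSt'.crd
    have h5 := hSt'.lt
    omega
  have h3 : Falsified (line r) y' := by
    intro l hl
    have h4 : l.1 ∈ vs (line r) := Finset.mem_image_of_mem _ hl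
    rw [hyA' l.1 (hvs h4)]
    exact hF l hl
  obtain ⟨i, hi, z, hz, hFz, hn⟩ := hMLN n k m F t d w ht (by omega) a S line ha hD y' (A ∪ B) W'
    J' hSt' (fun z hz => hG z fun u hu => by
      rw [hz u (Finset.mem_union_left _ hu), hyA' u hu]) r hr h3
    (hvs.trans Finset.subset_union_left)
  refine ⟨i, hi, y', z, hdst, fun u hu => hz u (Finset.mem_union_right _ hu), hFz, ?_⟩
  have h5 : (A ∪ B) ∪ vs (line i) ⊆ (A ∪ W) ∪ (B ∪ (vs (line i) ∩ (A ∪ W)ᶜ)) := by
    intro u hu
    rcases Finset.mem_union.1 hu with hu | hu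
    · rcases Finset.mem_union.1 hu with hu | hu
      · exact Finset.mem_union_left _ (Finset.mem_union_left _ hu)
      · exact Finset.mem_union_right _ (Finset.mem_union_left _ hu)
    · by_cases h : u ∈ A ∪ W
      · exact Finset.mem_union_left _ h
      · exact Finset.mem_union_right _ (Finset.mem_union_right _
          (Finset.mem_inter.2 ⟨hu, Finset.mem_compl.2 h⟩))
  have h6 := Finset.card_le_card h5
  have h7 := Finset.card_union_le (A ∪ W) (B ∪ (vs (line i) ∩ (A ∪ W)ᶜ))
  omega

end Pool.Agent.H45.SQP
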