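import Pool.Agent.H47.SQ.Targets

/-!
# Search on random k-CNFs (MP_c62aed_lc), row UPA: forced variables
-/

set_option autoImplicit false

namespace Pool.Agent.H45.SQP

open Finset Pool.Agent.H97.RK Pool.Agent.H41.SS Pool.Agent.H47.SR
open Pool.Agent.H47.PL (Sat Os)
open Pool.Agent.H47.SQ (Derivation Refuted Find success Done)

open Classical in
theorem card_fix {α : Type} [Fintype α] (P : Finset α) (g : α → Bool) :
    (univ.filter fun ω : α → Bool => ∀ x ∈ P, ω x = g x).card * 2 ^ P.card =
      Fintype.card (α → Bool) := by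
  have h1 : (univ.filter fun ω : α → Bool => ∀ x ∈ P, ω x = g x) =
      Fintype.piFinset fun x => if x ∈ P then {g x} else univ := by
    ext ω
    rw [mem_filter, Fintype.mem_piFinset]
    constructor
    · rintro ⟨-, h⟩ x
      by_cases hx : x ∈ P
      · rw [if_pos hx, mem_singleton]
        exact h x hx
      · rw [if_neg hx]
        exact mem_univ _
    · intro h
      refine ⟨mem_univ _, fun x hx => ?_⟩
      have h2 := h x
      rw [if_pos hx, mem_singleton] at h2
      exact h2
  rw [h1, Fintype.card_piFinset]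
  have h2 : ∀ x ∈ (univ : Finset α), ((if x ∈ P then {g x} else univ : Finset Bool)).card =
      if x ∈ P then 1 else 2 := by
    intro x _
    by_cases hx : x ∈ P
    · rw [if_pos hx, if_pos hx, card_singleton]
    · rw [if_neg hx, if_neg hx, card_univ, Fintype.card_bool]
  rw [Finset.prod_congr rfl h2, Finset.prod_ite, prod_const_one, one_mul, prod_const,
    Fintype.card_fun, Fintype.card_bool, ← pow_add]
  congr 1
  have h3 : (univ.filter fun x => x ∉ P) = Pᶜ := by
    ext x
    simp
  rw [h3, Finset.card_compl_add_card]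

open Classical in
theorem card_fix' {α : Type} [Fintype α] (P : Finset α) (g : α → Bool) :
    (univ.filter fun ω : α → Bool => ∀ x ∈ P, ω x = g x).card * 2 ^ P.card =
      Nat.card (α → Bool) :=
  (card_fix P g).trans Nat.card_eq_fintype_card.symm

/-- the partial assignment which sets the first `i` variables as `σ` -/
def LL {n : ℕ} (σ : Fin n → Bool) (i : ℕ) : Finset (Fin n × Bool) :=
  (univ.filter fun u : Fin n => u.1 < i).image fun u => (u, σ u)

theorem mem_LL {n : ℕ} (σ : Fin n → Bool) (i : ℕ) (x : Fin n × Bool) :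
    x ∈ LL σ i ↔ x.1.1 < i ∧ x.2 = σ x.1 := by
  unfold LL
  rw [mem_image]
  constructor
  · rintro ⟨u, hu, rfl⟩
    exact ⟨(mem_filter.1 hu).2, rfl⟩
  · rintro ⟨h1, h2⟩
    exact ⟨x.1, mem_filter.2 ⟨mem_univ _, h1⟩, Prod.ext rfl h2.symm⟩

theorem LL_inj {n : ℕ} (σ : Fin n → Bool) (v v' : Fin n) (h : LL σ v.1 = LL σ v'.1) : v = v' := by
  have key : ∀ u u' : Fin n, LL σ u.1 = LL σ u'.1 → ¬ u.1 < u'.1 := by
    intro u u' h1 h2
    have h3 : (u, σ u) ∈ LL σ u'.1 := (mem_LL σ _ _).2 ⟨h2, rfl⟩
    rw [← h1] at h3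
    exact lt_irrefl _ ((mem_LL σ _ _).1 h3).1
  have h1 := key v v' h
  have h2 := key v' v h.symm
  exact Fin.ext (by omega)

theorem find_chain {n k m : ℕ} (F : Fml n k m) (σ : Fin n → Bool) (hσ : Sat F σ)
    (ω : Finset (Fin n × Bool) → Bool)
    (hω : ∀ v : Fin n, ¬ Frc F σ v → ω (LL σ v.1) = σ v) (j : ℕ) (hj : j ≤ n) :
    Find F (Refuted F 1 1) ω
      (Pool.Agent.H47.SQ.chain ((List.finRange n).drop (n - j))) (LL σ (n - j)) := by
  induction j with
  | zero =>
    have h1 : (List.finRange n).drop (n - 0) = [] := by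
      rw [List.drop_eq_nil_iff, List.length_finRange]
      omega
    rw [h1]
    show Done F (LL σ (n - 0))
    intro c
    obtain ⟨i, hi⟩ := hσ c
    exact ⟨i, (mem_LL σ _ _).2 ⟨by have := (F c i).1.2; omega, hi.symm⟩⟩
  | succ j ih =>
    have hlt : n - (j + 1) < n := by omega
    have h1 : (List.finRange n).drop (n - (j + 1)) =
        (⟨n - (j + 1), hlt⟩ : Fin n) :: (List.finRange n).drop (n - j) := by
      rw [List.drop_eq_getElem_cons (by rw [List.length_finRange]; exact hlt),
        List.getElem_finRange]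
      have h2 : n - (j + 1) + 1 = n - j := by omega
      rw [h2]
      rfl
    rw [h1]
    obtain ⟨v, hv⟩ : ∃ v : Fin n, v = ⟨n - (j + 1), hlt⟩ := ⟨_, rfl⟩
    have hv1 : v.1 = n - (j + 1) := by rw [hv]
    rw [← hv, ← hv1]
    have hins : insert (v, σ v) (LL σ v.1) = LL σ (n - j) := by
      ext x
      rw [mem_insert, mem_LL, mem_LL]
      constructor
      · rintro (rfl | ⟨h3, h4⟩)
        · exact ⟨by show v.1 < n - j; omega, rfl⟩
        · exact ⟨by omega, h4⟩
      · rintro ⟨h3, h4⟩
        by_cases h5 : x.1 = v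
        · left
          refine Prod.ext h5 ?_
          rw [h4, h5]
        · right
          refine ⟨?_, h4⟩
          have h6 : x.1.1 ≠ v.1 := fun h => h5 (Fin.ext h)
          omega
    show (∃ b, (v, b) ∈ LL σ v.1 ∧ _) ∨ ((∀ b, (v, b) ∉ LL σ v.1) ∧
      ∃ b, (ω (LL σ v.1) = b ∨ Refuted F 1 1 (insert (v, !b) (LL σ v.1))) ∧
        Find F (Refuted F 1 1) ω (Pool.Agent.H47.SQ.chain ((List.finRange n).drop (n - j)))
          (insert (v, b) (LL σ v.1)))
    right
    refine ⟨?_, σ v, ?_, ?_⟩
    · intro b hb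
      exact lt_irrefl _ ((mem_LL σ _ _).1 hb).1
    · by_cases hf : Frc F σ v
      · right
        obtain ⟨c, i, h3, h4, h5⟩ := hf
        refine ⟨1, 0, fun _ => univ.image (F c), le_rfl, Nat.one_pos, ?_, ?_⟩
        · intro i' _
          left
          refine ⟨{c}, by rw [card_singleton], fun z hz => ?_⟩
          obtain ⟨p, hp⟩ := hz c (mem_singleton_self c)
          exact ⟨F c p, mem_image_of_mem _ (mem_univ p), hp⟩
        · intro l hl
          obtain ⟨p, -, rfl⟩ := mem_image.1 hl
          by_cases hp : p = i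
          · rw [hp, h3, ← h4]
            exact mem_insert_self _ _
          · obtain ⟨h6, h7⟩ := h5 p hp
            refine mem_insert_of_mem ((mem_LL σ _ _).2 ⟨h6, ?_⟩)
            show (!(F c p).2) = σ (F c p).1
            revert h7
            cases (F c p).2 <;> cases σ (F c p).1 <;> simp
      · left
        exact hω v hf
    · rw [hins]
      exact ih (by omega)

open Classical in
theorem pf_UPA : T_UPA := by
  intro n k m F σ hσ
  set N := univ.filter fun v : Fin n => ¬ Frc F σ v with hN
  have hcard : (univ.filter fun v => Frc F σ v).card + N.card = n := by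
    rw [hN, Finset.card_filter_add_card_filter_not, card_univ, Fintype.card_fin]
  set P : Finset (Finset (Fin n × Bool)) := N.image fun v => LL σ v.1 with hP
  have hPN : P.card ≤ N.card := card_image_le
  let g : Finset (Fin n × Bool) → Bool := fun x => decide (∃ v : Fin n, LL σ v.1 = x ∧ σ v = true)
  have hg : ∀ v : Fin n, g (LL σ v.1) = σ v := by
    intro v
    show decide (∃ v' : Fin n, LL σ v'.1 = LL σ v.1 ∧ σ v' = true) = σ v
    cases hv : σ v with
    | true =>
      rw [decide_eq_true_iff]
      exact ⟨v, rfl, hv⟩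
    | false =>
      rw [decide_eq_false_iff_not]
      rintro ⟨v', h1, h2⟩
      rw [LL_inj σ v' v h1, hv] at h2
      exact Bool.false_ne_true h2
  have h1' := card_fix' P g
  have h2 : (univ.filter fun ω : Finset (Fin n × Bool) → Bool => ∀ x ∈ P, ω x = g x).card ≤
      Nat.card {ω : Finset (Fin n × Bool) → Bool //
        Find F (Refuted F 1 1) ω (Pool.Agent.H47.SQ.chain (List.finRange n)) ∅} := by
    rw [Nat.card_eq_fintype_card, Fintype.card_subtype]
    refine card_le_card ?_
    intro ω hω
    have hω' := (mem_filter.1 hω).2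
    refine mem_filter.2 ⟨mem_univ _, ?_⟩
    have h3 := find_chain F σ hσ ω (fun v hv => by
      rw [hω' _ (mem_image_of_mem _ (mem_filter.2 ⟨mem_univ _, hv⟩)), hg]) n le_rfl
    rw [Nat.sub_self, List.drop_zero] at h3
    have h4 : LL σ 0 = ∅ := by
      ext x
      rw [mem_LL]
      simp
    rw [h4] at h3
    exact h3
  unfold success
  have hpos : (0 : ℝ) < Nat.card (Finset (Fin n × Bool) → Bool) := by
    rw [Nat.card_eq_fintype_card, Fintype.card_fun, Fintype.card_bool]
    positivity
  rw [le_div_iff₀ hpos]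
  have h3 : (Nat.card (Finset (Fin n × Bool) → Bool) : ℝ) =
      ((univ.filter fun ω : Finset (Fin n × Bool) → Bool => ∀ x ∈ P, ω x = g x).card : ℝ) *
        2 ^ P.card := by
    have h0 : Nat.card (Finset (Fin n × Bool) → Bool) =
        (univ.filter fun ω : Finset (Fin n × Bool) → Bool => ∀ x ∈ P, ω x = g x).card *
          2 ^ P.card := by
      refine h1'.symm.trans ?_
      congr
      funext a b
      exact Subsingleton.elim _ _
    rw [h0]
    push_cast
    rfl
  rw [h3]
  set c := (univ.filter fun ω : Finset (Fin n × Bool) → Bool => ∀ x ∈ P, ω x = g x).card with hc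
  have h4 : (2 : ℝ) ^ (univ.filter fun v => Frc F σ v).card * (1 / 2) ^ n * 2 ^ P.card ≤ 1 := by
    have h5 : (2 : ℝ) ^ P.card ≤ 2 ^ N.card := pow_le_pow_right₀ (by norm_num) hPN
    calc (2 : ℝ) ^ (univ.filter fun v => Frc F σ v).card * (1 / 2) ^ n * 2 ^ P.card
        ≤ (2 : ℝ) ^ (univ.filter fun v => Frc F σ v).card * (1 / 2) ^ n * 2 ^ N.card :=
          mul_le_mul_of_nonneg_left h5 (by positivity)
      _ = (2 : ℝ) ^ ((univ.filter fun v => Frc F σ v).card + N.card) * (1 / 2) ^ n := by
          rw [pow_add]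
          ring
      _ = 1 := by
          rw [hcard, ← mul_pow]
          norm_num
  calc (2 : ℝ) ^ (univ.filter fun v => Frc F σ v).card * (1 / 2) ^ n * ((c : ℝ) * 2 ^ P.card)
      = ((2 : ℝ) ^ (univ.filter fun v => Frc F σ v).card * (1 / 2) ^ n * 2 ^ P.card) * c := by
        ring
    _ ≤ 1 * c := mul_le_mul_of_nonneg_right h4 (Nat.cast_nonneg _)
    _ = c := one_mul _
    _ ≤ _ := by exact_mod_cast h2

end Pool.Agent.H45.SQP
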